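import Pool.Agent.N510.LT.IntF
import Pool.Agent.N510.LT.NearHyp

set_option autoImplicit false

/-! Quadratic forms over integral group rings near the hyperbolic form: `√2` is the exact critical
distance in the operator norm. -/

namespace Pool.Agent.Results.MP_98022b_gt.DistanceRootTwoForms

open Matrix

section defs

variable {Γ : Type} [Group Γ]

/-- the adjoint (conjugate transpose) of a matrix over `ℤΓ`, for the involution `g ↦ g⁻¹` -/
noncomputable def adjoint {κ μ : Type} (A : Matrix κ μ (MonoidAlgebra ℤ Γ)) :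
    Matrix μ κ (MonoidAlgebra ℤ Γ) :=
  Matrix.of fun j i => MonoidAlgebra.mapDomain (fun g => g⁻¹) (A i j)

/-- the `ε`-symmetric form `λ = ψ + εψ*` of the `ε`-quadratic form `ψ` -/
noncomputable def symmetrization {κ : Type} (ε : ℤ) (ψ : Matrix κ κ (MonoidAlgebra ℤ Γ)) :
    Matrix κ κ (MonoidAlgebra ℤ Γ) := ψ + ε • adjoint ψ

/-- `A` as a matrix over `ℝΓ` -/
noncomputable def realMatrix {κ μ : Type} (A : Matrix κ μ (MonoidAlgebra ℤ Γ)) :
    Matrix κ μ (MonoidAlgebra ℝ Γ) :=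
  A.map (MonoidAlgebra.mapRingHom Γ (Int.castRingHom ℝ))

/-- `|A|`: the matrix over `ℝΓ` of the absolute values of the coefficients of `A` -/
noncomputable def absMatrix {κ μ : Type} (A : Matrix κ μ (MonoidAlgebra ℤ Γ)) :
    Matrix κ μ (MonoidAlgebra ℝ Γ) :=
  A.map fun x => MonoidAlgebra.ofCoeff (x.coeff.mapRange (fun n : ℤ => |(n : ℝ)|) (by simp))

/-- the squared `ℓ²`-norm of a finitely supported vector in `ℓ²(Γ)^κ` -/
noncomputable def normSq {κ : Type} [Fintype κ] (x : κ → MonoidAlgebra ℝ Γ) : ℝ :=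
  ∑ i, ∑ g ∈ (x i).coeff.support, (x i).coeff g ^ 2

/-- The operator norm of `B`, acting on the row vectors in `ℓ²(Γ)^κ`, is at most `|c|`. -/
def NormLE {κ μ : Type} [Fintype κ] [Fintype μ] (B : Matrix κ μ (MonoidAlgebra ℝ Γ)) (c : ℝ) :
    Prop := ∀ x : κ → MonoidAlgebra ℝ Γ, normSq (x ᵥ* B) ≤ c ^ 2 * normSq x

/-- the square matrix `x` over `ℤΓ` is zero in the Whitehead group: stabilised by an identity block,
it is `± g` on one diagonal entry times a product of commutators of invertible matrices -/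
def ZeroInWh {κ : Type} [Fintype κ] [DecidableEq κ]
    (x : Matrix κ κ (MonoidAlgebra ℤ Γ)) : Prop :=
  ∃ (m : ℕ) (g : Γ) (ε : ℤˣ)
    (C : (Matrix (κ ⊕ Fin (m + 1)) (κ ⊕ Fin (m + 1)) (MonoidAlgebra ℤ Γ))ˣ),
    C ∈ commutator (Matrix (κ ⊕ Fin (m + 1)) (κ ⊕ Fin (m + 1)) (MonoidAlgebra ℤ Γ))ˣ ∧
    Matrix.fromBlocks x 0 0 (1 : Matrix (Fin (m + 1)) (Fin (m + 1)) (MonoidAlgebra ℤ Γ)) =
      Matrix.diagonal (fun i : κ ⊕ Fin (m + 1) =>
          if i = Sum.inr (0 : Fin (m + 1)) then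
            (MonoidAlgebra.single g ((ε : ℤ)) : MonoidAlgebra ℤ Γ) else 1) *
        (↑C : Matrix (κ ⊕ Fin (m + 1)) (κ ⊕ Fin (m + 1)) (MonoidAlgebra ℤ Γ))

/-- simple isometry of `ε`-quadratic forms (matrices modulo the matrices `χ - εχ*`) -/
def SimplyIsometric {κ : Type} [Fintype κ] [DecidableEq κ] (ε : ℤ)
    (ψ ψ' : Matrix κ κ (MonoidAlgebra ℤ Γ)) : Prop :=
  ∃ (E : (Matrix κ κ (MonoidAlgebra ℤ Γ))ˣ) (χ : Matrix κ κ (MonoidAlgebra ℤ Γ)),
    ZeroInWh E.val ∧ E.val * ψ * adjoint E.val = ψ' + (χ - ε • adjoint χ)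

/-- The sum of the planes with `q(x) = a k`, `q(y) = b k` and `λ(x, y) = 1`: the hyperbolic plane for
`a k = b k = 0`, the plane of Arf invariant one for `a k = b k = 1`. -/
noncomputable def planes {μ : Type} [DecidableEq μ] (a b : μ → ℤ) :
    Matrix (μ ⊕ μ) (μ ⊕ μ) (MonoidAlgebra ℤ Γ) :=
  fromBlocks (diagonal fun k => MonoidAlgebra.single 1 (a k)) 1 0
    (diagonal fun k => MonoidAlgebra.single 1 (b k))

/-- the sum of hyperbolic planes, indexed by `μ` -/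
noncomputable def hyperbolic (Γ : Type) [Group Γ] (μ : Type) [DecidableEq μ] :
    Matrix (μ ⊕ μ) (μ ⊕ μ) (MonoidAlgebra ℤ Γ) := planes (fun _ => 0) (fun _ => 0)

end defs

section aux

open TH57.Thr TH6.LF TH6.PF TH6.CX Pool.Agent.N510.LT

variable {Γ : Type} [Group Γ] {κ : Type} [Fintype κ] [DecidableEq κ]

theorem adjoint_eq {κ μ : Type} (A : Matrix κ μ (MonoidAlgebra ℤ Γ)) :
    adjoint A = sadj (1 : Γ →* ℤˣ) A := by
  ext1 j i
  change TH6.LF.bar (A i j) = sbar (1 : Γ →* ℤˣ) (A i j)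
  ext g
  rw [coeff_bar, coeff_sbar]
  change _ = (((1 : Γ →* ℤˣ) g : ℤˣ) : ℤ) • (A i j).coeff g⁻¹
  rw [MonoidHom.one_apply, Units.val_one, one_smul]

theorem simple_of_iso {ε : ℤ} {ψ ψ' : Matrix κ κ (MonoidAlgebra ℤ Γ)}
    (h : GIso (1 : Γ →* ℤˣ) (TU Γ) ε ψ ψ') : SimplyIsometric ε ψ ψ' := by
  obtain ⟨E, χ, h1, h2⟩ := h
  refine ⟨E, χ, TT_explicit E h1, ?_⟩
  rw [adjoint_eq, adjoint_eq]
  exact h2

theorem simple_of_iso' {ε : ℤ} {ψ ψ' : Matrix κ κ (MonoidAlgebra ℤ Γ)}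
    (h : Pool.Agent.R719.LF.Iso ε ψ ψ') : SimplyIsometric ε ψ ψ' := by
  obtain ⟨E, χ, h1, h2⟩ := h
  exact ⟨E, χ, TT_explicit E h1, h2⟩

theorem sym_eq {κ : Type} (ε : ℤ) (ψ : Matrix κ κ (MonoidAlgebra ℤ Γ)) :
    symmetrization ε ψ = glam (1 : Γ →* ℤˣ) ε ψ := by
  unfold symmetrization glam
  rw [adjoint_eq]

theorem absMatrix_eq {κ : Type} (A : Matrix κ κ (MonoidAlgebra ℤ Γ)) :
    absMatrix A = toReal (szm Int.natAbs rfl A) := by
  ext i j g
  simp only [toReal, Matrix.map_apply, MonoidAlgebra.coeff_mapRingHom, szm, coeff_sz]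
  change |(((A i j).coeff g : ℤ) : ℝ)| = (((((A i j).coeff g).natAbs : ℕ) : ℤ) : ℝ)
  rw [Int.natCast_natAbs, Int.cast_abs]

theorem hyperbolic_eq {μ : Type} [DecidableEq μ] :
    hyperbolic Γ μ = TH6.LF.hyp (MonoidAlgebra ℤ Γ) μ := by
  ext1 x y
  rcases x with x | x <;> rcases y with y | y <;> simp [hyperbolic, planes, TH6.LF.hyp]

end aux

open Pool.Agent.N510.LT in
/-- Let `Γ` be a group and `ε = ±1`, and let `λ_ψ = ψ + εψ*`. (1) If `Γ` has no element of order two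
(for instance, if it is torsion-free), each nonsingular `ε`-quadratic form `ψ` of even rank over `ℤΓ`
such that the operator norm of `λ_ψ - λ_H` is less than `√2`, where `H` is the standard hyperbolic
form, is, up to the order of the basis, simply isometric to a sum of planes defined over `ℤ`, which
are all hyperbolic if `ε = 1`. (2) The constant is sharp: each `ε`-quadratic form of even rank over
`ℤΓ` is, after adding hyperbolic planes, simply isometric to a form `φ` such that all coefficients of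
`λ_φ - λ_H` are `0` or `± 1` and the operator norm of `|λ_φ - λ_H|` is at most `√2`. -/
theorem result (Γ : Type) [Group Γ] (ε : ℤ) (hε : ε = 1 ∨ ε = -1) :
    ((∀ g : Γ, g * g = 1 → g = 1) → ∀ c : ℝ, 0 ≤ c → c < Real.sqrt 2 →
      ∀ (κ : Type) [Fintype κ] [DecidableEq κ] (ψ : Matrix (κ ⊕ κ) (κ ⊕ κ) (MonoidAlgebra ℤ Γ)),
        IsUnit (symmetrization ε ψ) →
        NormLE (realMatrix (symmetrization ε ψ - symmetrization ε (hyperbolic Γ κ))) c →
        ∃ (m : ℕ) (e : Fin m ⊕ Fin m ≃ κ ⊕ κ) (a b : Fin m → ℤ),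
          (∀ k, (a k = 0 ∨ a k = 1) ∧ (b k = 0 ∨ b k = 1)) ∧
          (ε = 1 → ∀ k, a k = 0 ∧ b k = 0) ∧
          SimplyIsometric ε (ψ.submatrix e e) (planes a b)) ∧
    ∀ (κ : Type) [Fintype κ] [DecidableEq κ] (ψ : Matrix (κ ⊕ κ) (κ ⊕ κ) (MonoidAlgebra ℤ Γ)),
      ∃ (m : ℕ) (φ : Matrix ((κ ⊕ κ) ⊕ (Fin m ⊕ Fin m)) ((κ ⊕ κ) ⊕ (Fin m ⊕ Fin m))
        (MonoidAlgebra ℤ Γ)),
        SimplyIsometric ε (fromBlocks ψ 0 0 (hyperbolic Γ (Fin m))) φ ∧
        (∀ i j g, |((symmetrization ε φ - symmetrization ε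
            (fromBlocks (hyperbolic Γ κ) 0 0 (hyperbolic Γ (Fin m)))) i j).coeff g| ≤ 1) ∧
        NormLE (absMatrix (symmetrization ε φ - symmetrization ε
            (fromBlocks (hyperbolic Γ κ) 0 0 (hyperbolic Γ (Fin m))))) (Real.sqrt 2) := by
  classical
  refine ⟨fun htf c hc0 hc κ _ _ ψ hu hN => ?_, fun κ _ _ ψ => ?_⟩
  · have hc2 : c ^ 2 < 2 := by
      have h1 : c ^ 2 < Real.sqrt 2 ^ 2 := pow_lt_pow_left₀ hc hc0 two_ne_zero
      rwa [Real.sq_sqrt two_pos.le] at h1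
    rw [hyperbolic_eq] at hN
    have hd := dom_of_near hε hc2 ψ hN
    obtain ⟨μ, i1, i2, e, a, b, h3, h4, h5⟩ :=
      Pool.Agent.R719.LF.main htf hε _ (κ ⊕ κ) rfl ψ _ _ _ hd hu
    let w : Fin (Fintype.card μ) ≃ μ := (Fintype.equivFin μ).symm
    refine ⟨Fintype.card μ, (Equiv.sumCongr w w).trans e, a ∘ w, b ∘ w, fun k => h3 _,
      fun hh k => h4 hh _, ?_⟩
    have h6 := h5.reindex (Equiv.sumCongr w w)
    have h7 : (Pool.Agent.R719.LF.pf a b : Matrix (μ ⊕ μ) (μ ⊕ μ) (MonoidAlgebra ℤ Γ)).submatrix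
        (Equiv.sumCongr w w) (Equiv.sumCongr w w) = planes (a ∘ w) (b ∘ w) := by
      ext1 x y
      rcases x with x | x <;> rcases y with y | y <;>
        simp [Pool.Agent.R719.LF.pf, planes, Matrix.one_apply, Matrix.diagonal_apply]
    rw [h7] at h6
    exact simple_of_iso' h6
  · obtain ⟨m, φ, hφ⟩ := int_dist (1 : Γ →* ℤˣ) ψ
    obtain ⟨h1, h2, h4⟩ := hφ ε hε
    have hH : (fromBlocks (hyperbolic Γ κ) 0 0 (hyperbolic Γ (Fin m)) :
        Matrix ((κ ⊕ κ) ⊕ (Fin m ⊕ Fin m)) ((κ ⊕ κ) ⊕ (Fin m ⊕ Fin m)) (MonoidAlgebra ℤ Γ))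
        = TH6.LF.addHyp (Fin m) (TH6.LF.hyp (MonoidAlgebra ℤ Γ) κ) := by
      rw [hyperbolic_eq, hyperbolic_eq]
      rfl
    refine ⟨m, φ, ?_, ?_, ?_⟩
    · rw [hyperbolic_eq]
      exact simple_of_iso h1
    · rw [hH, sym_eq, sym_eq]
      intro i j g
      by_cases h : ((glam (1 : Γ →* ℤˣ) ε φ - glam (1 : Γ →* ℤˣ) ε
          (TH6.LF.addHyp (Fin m) (TH6.LF.hyp (MonoidAlgebra ℤ Γ) κ))) i j).coeff g = 0
      · rw [h]; norm_num
      · rcases h2 i j g h with h5 | h5 <;> rw [h5] <;> norm_num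
    · rw [hH, sym_eq, sym_eq, absMatrix_eq]
      exact h4

end Pool.Agent.Results.MP_98022b_gt.DistanceRootTwoForms
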